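import Pool.Agent.H70.SF.PH
import Pool.Agent.H91.Fatou.Crit
import Pool.Agent.H79.Par.XX
import Pool.Agent.H35.EX.Chord

/-!
SMOOTHED FATOU (MP_8f2e1c_an): bridge to the sphere `OnePoint ℂ`, part A (helper26).

`pr u` is the point of the sphere with homogeneous coordinates `u`. `Nz X`: the homogeneous map `FF X` has no zero
on the unit sphere. Then `pol X.1`, `pol X.2` are coprime, the degree is `d`, `Rf X (pr u) = pr (FF X u) = pr (nx X u)`,
the chordal distance of `pr u`, `pr v` is `‖wd u v‖`, and the critical points are the zeros of `JJ X`.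
-/

set_option autoImplicit false

open Filter Topology Polynomial OnePoint Metric Finset

namespace Pool.H26.SF

open Pool.H70.SF Pool.Agent.H44.Fatou Pool.Agent.H91.Fatou Pool.Agent.H79.Eul Pool.Agent.H79.Par
open Pool.Agent.H32.BT

/-- the point of the sphere with given homogeneous coordinates -/
noncomputable def pr (u : ℂ × ℂ) : OnePoint ℂ := pt u.1 u.2

/-- no common zero on the unit sphere -/
def Nz {d : ℕ} (X : CV d) : Prop := ∀ u, IsU u → 0 < n2 (FF X u)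

variable {d : ℕ}

theorem unit_ne {u : ℂ × ℂ} (hu : IsU u) : u.1 ≠ 0 ∨ u.2 ≠ 0 := by
  by_contra h
  push Not at h
  unfold IsU n2 at hu
  rw [h.1, h.2] at hu
  simp at hu

theorem n2_pos {u : ℂ × ℂ} (h : u.1 ≠ 0 ∨ u.2 ≠ 0) : 0 < n2 u := by
  unfold n2
  rcases h with h | h
  · have := norm_pos_iff.2 h
    positivity
  · have := norm_pos_iff.2 h
    positivity

theorem ne_of_n2 {u : ℂ × ℂ} (h : 0 < n2 u) : u.1 ≠ 0 ∨ u.2 ≠ 0 := by
  by_contra hc
  push Not at hc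
  unfold n2 at h
  rw [hc.1, hc.2] at h
  simp at h

/-- normalisation -/
theorem exists_unit {u : ℂ × ℂ} (h : u.1 ≠ 0 ∨ u.2 ≠ 0) : ∃ (z : ℂ) (v : ℂ × ℂ), z ≠ 0 ∧ IsU v ∧ u = z • v := by
  have h1 := n2_pos h
  have h2 : 0 < √(n2 u) := Real.sqrt_pos.2 h1
  refine ⟨(√(n2 u) : ℂ), ((√(n2 u) : ℂ)⁻¹) • u, by exact_mod_cast h2.ne', ?_, ?_⟩
  · unfold IsU
    rw [n2_smul, norm_inv, Complex.norm_real, Real.norm_eq_abs, abs_of_pos h2, inv_pow, Real.sq_sqrt h1.le,
      inv_mul_cancel₀ h1.ne']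
  · rw [smul_smul, mul_inv_cancel₀ (by exact_mod_cast h2.ne'), one_smul]

theorem pr_smul {z : ℂ} (hz : z ≠ 0) (u : ℂ × ℂ) : pr (z • u) = pr u := by
  unfold pr
  have : (z • u).1 = u.1 * z := by simp [mul_comm]
  have h2 : (z • u).2 = u.2 * z := by simp [mul_comm]
  rw [this, h2, pt_smul hz]

theorem exists_pr (x : OnePoint ℂ) : ∃ u, IsU u ∧ pr u = x := by
  obtain ⟨p, hp, h⟩ := exists_rep x
  obtain ⟨z, v, hz, hv, hpv⟩ := exists_unit (ne_of_sphere hp)
  refine ⟨v, hv, ?_⟩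
  rw [← h]
  show pr v = pr p
  rw [hpv, pr_smul hz]

theorem Nz.ne {X : CV d} (h : Nz X) {u : ℂ × ℂ} (hu : u.1 ≠ 0 ∨ u.2 ≠ 0) : 0 < n2 (FF X u) := by
  obtain ⟨z, v, hz, hv, rfl⟩ := exists_unit hu
  rw [FF_smul, n2_smul]
  have h1 := h v hv
  have h2 : 0 < ‖z ^ d‖ := norm_pos_iff.2 (pow_ne_zero _ hz)
  positivity

theorem pol_coeff (v : Fin (d + 1) → ℂ) (i : Fin (d + 1)) : (pol v).coeff (i : ℕ) = v i := by
  unfold pol
  rw [finsetSum_coeff, Finset.sum_eq_single i]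
  · simp
  · intro j _ hj
    rw [coeff_C_mul_X_pow, if_neg]
    intro h
    exact hj (Fin.ext h.symm)
  · intro h
    exact absurd (mem_univ _) h

theorem pol_deg (v : Fin (d + 1) → ℂ) : (pol v).natDegree ≤ d := by
  unfold pol
  refine natDegree_sum_le_of_forall_le _ _ fun i _ => ?_
  exact (natDegree_C_mul_X_pow_le _ _).trans (Nat.lt_succ_iff.1 i.2)

theorem hom_pol (v : Fin (d + 1) → ℂ) (x y : ℂ) : hom d (pol v) x y = hev v (x, y) := by
  unfold hom hev
  rw [Finset.sum_range]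
  refine Finset.sum_congr rfl fun i _ => ?_
  rw [pol_coeff]

theorem pol_eval (v : Fin (d + 1) → ℂ) (z : ℂ) : (pol v).eval z = hev v (z, 1) := by
  rw [← hom_pol, hom_one (pol_deg v)]

/-- nondegenerate maps have coprime numerator and denominator -/
theorem Nz.coprime {X : CV d} (h : Nz X) : IsCoprime (pol X.1) (pol X.2) := by
  rw [Polynomial.isCoprime_iff_aeval_ne_zero_of_isAlgClosed ℂ ℂ]
  intro z
  have h1 := ne_of_n2 (h.ne (u := (z, 1)) (Or.inr one_ne_zero))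
  simp only [coe_aeval_eq_eval]
  rw [pol_eval, pol_eval]
  exact h1

theorem Nz.deg {X : CV d} (h : Nz X) : max (pol X.1).natDegree (pol X.2).natDegree = d := by
  have h1 := h.ne (u := (1, 0)) (Or.inl one_ne_zero)
  have h2 : FF X (1, 0) = (X.1 (Fin.last d), X.2 (Fin.last d)) := by
    unfold FF
    rw [← hom_pol, ← hom_pol, hom_zero_right, hom_zero_right]
    have e1 := pol_coeff X.1 (Fin.last d)
    have e2 := pol_coeff X.2 (Fin.last d)
    rw [Fin.val_last] at e1 e2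
    rw [e1, e2, one_pow, mul_one, mul_one]
  rw [h2] at h1
  have h3 := ne_of_n2 h1
  refine le_antisymm (max_le (pol_deg _) (pol_deg _)) ?_
  rcases h3 with h3 | h3
  · refine le_trans (le_natDegree_of_ne_zero ?_) (le_max_left _ _)
    have e1 := pol_coeff X.1 (Fin.last d)
    rw [Fin.val_last] at e1
    rw [e1]
    exact h3
  · refine le_trans (le_natDegree_of_ne_zero ?_) (le_max_right _ _)
    have e1 := pol_coeff X.2 (Fin.last d)
    rw [Fin.val_last] at e1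
    rw [e1]
    exact h3

theorem Nz.dg {X : CV d} (h : Nz X) : dg (pol X.1) (pol X.2) = d := h.deg

/-- the map on homogeneous coordinates -/
theorem Nz.Rf_pr {X : CV d} (h : Nz X) {u : ℂ × ℂ} (hu : u.1 ≠ 0 ∨ u.2 ≠ 0) : Rf X (pr u) = pr (FF X u) := by
  unfold Rf pr
  rw [rat_pt hu, h.dg, hom_pol, hom_pol]
  rfl

theorem nx_eq (X : CV d) (u : ℂ × ℂ) : nx X u = (((√(n2 (FF X u)))⁻¹ : ℝ) : ℂ) • FF X u := rfl

theorem Nz.Rf_nx {X : CV d} (h : Nz X) {u : ℂ × ℂ} (hu : IsU u) : Rf X (pr u) = pr (nx X u) := by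
  rw [h.Rf_pr (unit_ne hu), nx_eq, pr_smul]
  have := h u hu
  have h2 : 0 < (√(n2 (FF X u)))⁻¹ := inv_pos.2 (Real.sqrt_pos.2 this)
  exact_mod_cast h2.ne'

theorem Nz.ob {X : CV d} (h : Nz X) {c : ℂ × ℂ} (hc : IsU c) (k : ℕ) :
    IsU (ob X c k) ∧ (Rf X)^[k] (Rf X (pr c)) = pr (ob X c k) := by
  induction k with
  | zero => exact ⟨n2_nx X (h c hc), h.Rf_nx hc⟩
  | succ k ih =>
    refine ⟨n2_nx X (h _ ih.1), ?_⟩
    rw [Function.iterate_succ_apply', ih.2, h.Rf_nx ih.1]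
    rfl

end Pool.H26.SF
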