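import Pool.Agent.H26.SF.BrA

/-!
SMOOTHED FATOU (MP_8f2e1c_an): bridge to the sphere `OnePoint ℂ`, part B (helper26): chordal distance and critical points.
-/

set_option autoImplicit false

open Filter Topology Polynomial OnePoint Metric Finset

namespace Pool.H26.SF

open Pool.H70.SF Pool.Agent.H44.Fatou Pool.Agent.H91.Fatou Pool.Agent.H79.Eul Pool.Agent.H79.Par
open Pool.Agent.H32.BT

variable {d : ℕ}

/-- the two definitions of the chordal distance agree -/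
theorem chord_eq' (x y : OnePoint ℂ) : Pool.Agent.H35.EX.chord x y = Pool.Agent.H91.Fatou.chord x y := by
  induction x using OnePoint.rec with
  | infty =>
    induction y using OnePoint.rec with
    | infty =>
      show (0 : ℝ) = _
      rw [chord_self]
    | coe w =>
      change 1 / √(1 + ‖w‖ ^ 2) = ‖(1 : ℂ) * 1 - w * 0‖ / (√(‖(1 : ℂ)‖ ^ 2 + ‖(0 : ℂ)‖ ^ 2) * √(‖w‖ ^ 2 + ‖(1 : ℂ)‖ ^ 2))
      simp [add_comm]
  | coe z =>
    induction y using OnePoint.rec with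
    | infty =>
      change 1 / √(1 + ‖z‖ ^ 2) = ‖z * 0 - (1 : ℂ) * 1‖ / (√(‖z‖ ^ 2 + ‖(1 : ℂ)‖ ^ 2) * √(‖(1 : ℂ)‖ ^ 2 + ‖(0 : ℂ)‖ ^ 2))
      simp [add_comm]
    | coe w =>
      change ‖z - w‖ / (√(1 + ‖z‖ ^ 2) * √(1 + ‖w‖ ^ 2)) =
        ‖z * 1 - w * 1‖ / (√(‖z‖ ^ 2 + ‖(1 : ℂ)‖ ^ 2) * √(‖w‖ ^ 2 + ‖(1 : ℂ)‖ ^ 2))
      simp [add_comm]

theorem chord_pr {u v : ℂ × ℂ} (hu : IsU u) (hv : IsU v) : Pool.Agent.H91.Fatou.chord (pr u) (pr v) = ‖wd u v‖ := by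
  unfold pr
  rw [chord_pt (unit_ne hu) (unit_ne hv)]
  have h1 : nn u.1 u.2 = 1 := by
    unfold nn
    have : ‖u.1‖ ^ 2 + ‖u.2‖ ^ 2 = 1 := hu
    rw [this, Real.sqrt_one]
  have h2 : nn v.1 v.2 = 1 := by
    unfold nn
    have : ‖v.1‖ ^ 2 + ‖v.2‖ ^ 2 = 1 := hv
    rw [this, Real.sqrt_one]
  rw [h1, h2, mul_one, div_one]
  unfold wd
  congr 1
  ring

theorem pr_eq_iff {u v : ℂ × ℂ} (hu : IsU u) (hv : IsU v) : pr u = pr v ↔ wd u v = 0 := by
  constructor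
  · intro h
    have := chord_pr hu hv
    rw [h, chord_self] at this
    exact norm_eq_zero.1 this.symm
  · intro h
    apply chord_eq_zero
    rw [chord_pr hu hv, h, norm_zero]

/-- Euler's formula -/
theorem hev_euler (p : Fin (d + 1) → ℂ) (u : ℂ × ℂ) :
    u.1 * hev1 p u + u.2 * hev2 p u = d * hev p u := by
  unfold hev1 hev2 hev
  rw [Finset.mul_sum, Finset.mul_sum, Finset.mul_sum, ← Finset.sum_add_distrib]
  refine Finset.sum_congr rfl fun k _ => ?_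
  have hk : (k : ℕ) ≤ d := Nat.lt_succ_iff.1 k.2
  have h1 : (k : ℂ) * u.1 ^ (k : ℕ) = u.1 * ((k : ℕ) * u.1 ^ ((k : ℕ) - 1)) := by
    rcases Nat.eq_zero_or_pos (k : ℕ) with h | h
    · rw [h]; simp
    · obtain ⟨m, hm⟩ : ∃ m, (k : ℕ) = m + 1 := ⟨(k : ℕ) - 1, by omega⟩
      rw [hm, Nat.add_sub_cancel, pow_succ]
      ring
  have h2 : ((d - k : ℕ) : ℂ) * u.2 ^ (d - (k : ℕ)) = u.2 * (((d - k : ℕ) : ℂ) * u.2 ^ (d - (k : ℕ) - 1)) := by
    rcases Nat.eq_zero_or_pos (d - (k : ℕ)) with h | h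
    · rw [h]; simp
    · obtain ⟨m, hm⟩ : ∃ m, d - (k : ℕ) = m + 1 := ⟨d - (k : ℕ) - 1, by omega⟩
      rw [hm, Nat.add_sub_cancel, pow_succ]
      ring
  have h3 : (d : ℂ) = (k : ℂ) + ((d - k : ℕ) : ℂ) := by
    rw [← Nat.cast_add]
    congr 1
    omega
  calc u.1 * (p k * ((k : ℕ) * u.1 ^ ((k : ℕ) - 1)) * u.2 ^ (d - (k : ℕ))) +
        u.2 * (p k * u.1 ^ (k : ℕ) * (((d - k : ℕ) : ℂ) * u.2 ^ (d - (k : ℕ) - 1)))
      = p k * (u.1 * ((k : ℕ) * u.1 ^ ((k : ℕ) - 1))) * u.2 ^ (d - (k : ℕ)) +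
        p k * u.1 ^ (k : ℕ) * (u.2 * (((d - k : ℕ) : ℂ) * u.2 ^ (d - (k : ℕ) - 1))) := by ring
    _ = p k * ((k : ℂ) * u.1 ^ (k : ℕ)) * u.2 ^ (d - (k : ℕ)) +
        p k * u.1 ^ (k : ℕ) * (((d - k : ℕ) : ℂ) * u.2 ^ (d - (k : ℕ))) := by rw [← h1, ← h2]
    _ = ((k : ℂ) + ((d - k : ℕ) : ℂ)) * (p k * u.1 ^ (k : ℕ) * u.2 ^ (d - (k : ℕ))) := by ring
    _ = _ := by rw [← h3]

/-- derivative along a line -/
theorem hev_line (p : Fin (d + 1) → ℂ) (u v : ℂ × ℂ) (t : ℂ) :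
    HasDerivAt (fun t : ℂ => hev p (u + t • v)) (v.1 * hev1 p (u + t • v) + v.2 * hev2 p (u + t • v)) t := by
  unfold hev hev1 hev2
  rw [Finset.mul_sum, Finset.mul_sum, ← Finset.sum_add_distrib]
  refine HasDerivAt.fun_sum fun k _ => ?_
  have e1 : HasDerivAt (fun t : ℂ => (u + t • v).1) v.1 t := by
    have : (fun t : ℂ => (u + t • v).1) = fun t : ℂ => u.1 + t * v.1 := by funext t; simp
    rw [this]
    simpa using ((hasDerivAt_id t).mul_const v.1).const_add u.1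
  have e2 : HasDerivAt (fun t : ℂ => (u + t • v).2) v.2 t := by
    have : (fun t : ℂ => (u + t • v).2) = fun t : ℂ => u.2 + t * v.2 := by funext t; simp
    rw [this]
    simpa using ((hasDerivAt_id t).mul_const v.2).const_add u.2
  have e3 := e1.pow (k : ℕ)
  have e4 := e2.pow (d - (k : ℕ))
  have e5 := (e3.const_mul (p k)).mul e4
  convert! e5 using 1
  simp only [Pi.pow_apply]
  ring

theorem lin_pol (α β γ δ : ℂ) (p : Fin (d + 1) → ℂ) (t : ℂ) :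
    (lin α β γ δ d (pol p)).eval t = hev p ((β, δ) + t • (α, γ)) := by
  rw [lin_eval, hom_pol]
  congr 1
  ext
  · simp; ring
  · simp; ring

theorem lin_pol_deriv (α β γ δ : ℂ) (p : Fin (d + 1) → ℂ) :
    (derivative (lin α β γ δ d (pol p))).eval 0 = α * hev1 p (β, δ) + γ * hev2 p (β, δ) := by
  have h1 := (lin α β γ δ d (pol p)).hasDerivAt 0
  have h2 := hev_line p (β, δ) (α, γ) 0
  have h3 : (fun t : ℂ => hev p ((β, δ) + t • (α, γ))) = fun t => (lin α β γ δ d (pol p)).eval t := by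
    funext t
    rw [lin_pol]
  rw [h3] at h2
  have h4 := h1.unique h2
  rw [h4]
  simp

theorem wr_pol (α β γ δ : ℂ) (X : CV d) :
    (d : ℂ) * (Wr (lin α β γ δ d (pol X.1)) (lin α β γ δ d (pol X.2))).eval 0 =
      (α * δ - β * γ) * JJ X (β, δ) := by
  unfold Wr JJ
  rw [eval_sub, eval_mul, eval_mul, lin_pol_deriv, lin_pol_deriv, lin_pol, lin_pol, zero_smul, add_zero]
  have h1 := hev_euler X.1 (β, δ)
  have h2 := hev_euler X.2 (β, δ)
  simp only at h1 h2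
  linear_combination (-(α * hev1 X.1 (β, δ) + γ * hev2 X.1 (β, δ))) * h2 +
    (α * hev1 X.2 (β, δ) + γ * hev2 X.2 (β, δ)) * h1

theorem smul_of_wd {u v : ℂ × ℂ} (hu : IsU u) (h : wd v u = 0) :
    v = (v.1 * (starRingEnd ℂ) u.1 + v.2 * (starRingEnd ℂ) u.2) • u := by
  have h1 : u.1 * (starRingEnd ℂ) u.1 + u.2 * (starRingEnd ℂ) u.2 = 1 := by
    have h2 : ‖u.1‖ ^ 2 + ‖u.2‖ ^ 2 = 1 := hu
    rw [Complex.mul_conj, Complex.mul_conj, Complex.normSq_eq_norm_sq, Complex.normSq_eq_norm_sq]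
    exact_mod_cast h2
  unfold wd at h
  ext
  · simp only [Prod.smul_fst, smul_eq_mul]
    linear_combination -v.1 * h1 + (starRingEnd ℂ) u.2 * h
  · simp only [Prod.smul_snd, smul_eq_mul]
    linear_combination -v.2 * h1 - (starRingEnd ℂ) u.1 * h

/-- the critical points are the zeros of the Jacobian determinant -/
theorem Nz.crit_iff (hd : 1 ≤ d) {X : CV d} (h : Nz X) {c : ℂ × ℂ} (hc : IsU c) :
    IsCrit (Rf X) (pr c) ↔ JJ X c = 0 := by
  obtain ⟨α, β, γ, δ, hne, ho, h0⟩ := exists_chart (pr c)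
  have hd0 : (d : ℂ) ≠ 0 := by
    have : d ≠ 0 := by omega
    exact_mod_cast this
  have hbd : β ≠ 0 ∨ δ ≠ 0 := by
    have := ch_ne hne 0
    simpa using this
  obtain ⟨z, v, hz, hv, hzv⟩ := exists_unit (u := (β, δ)) hbd
  have hvc : wd v c = 0 := by
    rw [← pr_eq_iff hv hc, ← h0, ← pr_smul hz, ← hzv]
    unfold ch pr
    simp
  have hvs := smul_of_wd hc hvc
  set y := v.1 * (starRingEnd ℂ) c.1 + v.2 * (starRingEnd ℂ) c.2
  have hy : y ≠ 0 := by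
    intro h1
    rw [h1, zero_smul] at hvs
    rw [hvs] at hv
    unfold IsU n2 at hv
    simp at hv
  have hJ : JJ X (β, δ) = 0 ↔ JJ X c = 0 := by
    rw [hzv, hvs, smul_smul, JJ_smul, mul_eq_zero, or_iff_right]
    exact pow_ne_zero _ (pow_ne_zero _ (mul_ne_zero hz hy))
  have hW : (Wr (lin α β γ δ d (pol X.1)) (lin α β γ δ d (pol X.2))).eval 0 = 0 ↔ JJ X c = 0 := by
    rw [← hJ]
    have h1 := wr_pol α β γ δ X
    constructor
    · intro h2
      rw [h2, mul_zero] at h1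
      rcases mul_eq_zero.1 h1.symm with h3 | h3
      · exact absurd h3 hne
      · exact h3
    · intro h2
      rw [h2, mul_zero] at h1
      rcases mul_eq_zero.1 h1 with h3 | h3
      · exact absurd h3 hd0
      · exact h3
  constructor
  · intro hcr
    rw [← hW]
    by_contra hcon
    have := injOn_of_wr (P := pol X.1) (Q := pol X.2) (t := 0) hne ho (by rw [h.dg]; exact hcon)
    rw [h0] at this
    exact hcr this
  · intro hJ0
    rw [← hW] at hJ0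
    have h1 := crit_of_wr hne ho h.coprime (t := 0) (by rw [h.dg]; exact hJ0)
    rw [h0] at h1
    exact h1

end Pool.H26.SF
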