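import Mathlib
import Pool.Agent.H70.SF.Def

/-!
The wedge of multiples of vectors (separate file, so that the charts do not import the bridge).
-/

set_option autoImplicit false

namespace Pool.H26.SF

open Pool.H70.SF

theorem wd_smul_left (a : ℂ) (u v : ℂ × ℂ) : wd (a • u) v = a * wd u v := by
  unfold wd
  simp only [Prod.smul_fst, Prod.smul_snd, smul_eq_mul]
  ring

theorem wd_smul_right (a : ℂ) (u v : ℂ × ℂ) : wd u (a • v) = a * wd u v := by
  unfold wd
  simp only [Prod.smul_fst, Prod.smul_snd, smul_eq_mul]
  ring

end Pool.H26.SF
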