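import Pool.Agent.H26.SF.BrB
import Pool.Agent.H91.CS.CMAIN
import Pool.Agent.H26.SF.WdS

/-!
SMOOTHED FATOU (MP_8f2e1c_an): bridge to the sphere `OnePoint ℂ`, part C (helper26): exponential growth of the phase
derivatives `Ph X c n` gives the Collet-Eckmann condition, and `cs_main` in homogeneous coordinates.
-/

set_option autoImplicit false

open Filter Topology Polynomial OnePoint Metric Finset

namespace Pool.H26.SF

open Pool.H70.SF Pool.Agent.H44.Fatou Pool.Agent.H91.Fatou Pool.Agent.H79.Eul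
open Pool.Agent.H79.Par hiding Ph
open Pool.Agent.H32.BT

variable {d : ℕ}

/-- the orthogonal unit vector -/
noncomputable def qq (u : ℂ × ℂ) : ℂ × ℂ := (-(starRingEnd ℂ) u.2, (starRingEnd ℂ) u.1)

/-- the coordinate of `w` on `u` -/
noncomputable def cu (u w : ℂ × ℂ) : ℂ := w.1 * (starRingEnd ℂ) u.1 + w.2 * (starRingEnd ℂ) u.2

theorem unit_conj {u : ℂ × ℂ} (hu : IsU u) : u.1 * (starRingEnd ℂ) u.1 + u.2 * (starRingEnd ℂ) u.2 = 1 := by
  have h2 : ‖u.1‖ ^ 2 + ‖u.2‖ ^ 2 = 1 := hu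
  rw [Complex.mul_conj, Complex.mul_conj, Complex.normSq_eq_norm_sq, Complex.normSq_eq_norm_sq]
  exact_mod_cast h2

theorem decomp {u : ℂ × ℂ} (hu : IsU u) (w : ℂ × ℂ) : w = cu u w • u + wd u w • qq u := by
  have h1 := unit_conj hu
  unfold cu wd qq
  ext
  · simp only [Prod.fst_add, Prod.smul_fst, smul_eq_mul]
    linear_combination (-w.1) * h1
  · simp only [Prod.snd_add, Prod.smul_snd, smul_eq_mul]
    linear_combination (-w.2) * h1

theorem cu_norm {u w : ℂ × ℂ} (hu : IsU u) (hw : IsU w) : ‖cu u w‖ ^ 2 + ‖wd u w‖ ^ 2 = 1 := by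
  have h1 := unit_conj hu
  have h2 := unit_conj hw
  have h3 : ((‖cu u w‖ ^ 2 + ‖wd u w‖ ^ 2 : ℝ) : ℂ) = 1 := by
    rw [← Complex.normSq_eq_norm_sq, ← Complex.normSq_eq_norm_sq]
    push_cast
    rw [← Complex.mul_conj, ← Complex.mul_conj]
    unfold cu wd
    simp only [map_add, map_sub, map_mul, Complex.conj_conj]
    linear_combination (w.1 * (starRingEnd ℂ) w.1 + w.2 * (starRingEnd ℂ) w.2) * h1 + h2
  exact_mod_cast h3

theorem wd_qq {u : ℂ × ℂ} (hu : IsU u) : wd u (qq u) = 1 := by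
  have h1 := unit_conj hu
  unfold wd qq
  linear_combination h1

/-- the Jacobian along the orthogonal direction -/
theorem wd_deriv (X : CV d) {u : ℂ × ℂ} (hu : IsU u) :
    (d : ℂ) * wd (FF X u) ((qq u).1 * hev1 X.1 u + (qq u).2 * hev2 X.1 u,
      (qq u).1 * hev1 X.2 u + (qq u).2 * hev2 X.2 u) = JJ X u := by
  have h1 := hev_euler X.1 u
  have h2 := hev_euler X.2 u
  have h3 := wd_qq hu
  unfold wd at h3 ⊢
  unfold FF JJ
  simp only
  linear_combination (-((qq u).1 * hev1 X.2 u + (qq u).2 * hev2 X.2 u)) * h1 +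
    ((qq u).1 * hev1 X.1 u + (qq u).2 * hev2 X.1 u) * h2 +
    (hev1 X.1 u * hev2 X.2 u - hev2 X.1 u * hev1 X.2 u) * h3

theorem hev_cont (p : Fin (d + 1) → ℂ) : Continuous fun u : ℂ × ℂ => hev p u := by
  unfold hev
  fun_prop

theorem FF_cont (X : CV d) : Continuous (FF X) := by
  unfold FF
  exact (hev_cont _).prodMk (hev_cont _)

theorem n2_cont : Continuous n2 := by
  unfold n2
  fun_prop

/-- the derivative in the chordal metric, lower bound -/
theorem Nz.loc (hd : 1 ≤ d) {X : CV d} (h : Nz X) {u : ℂ × ℂ} (hu : IsU u) {ε : ℝ} (hε : 0 < ε) :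
    ∃ δ : ℝ, 0 < δ ∧ ∀ w, IsU w → ‖wd u w‖ < δ →
      (‖aa X u‖ - ε) * ‖wd u w‖ ≤ ‖wd (nx X u) (nx X w)‖ := by
  have hd0 : (d : ℂ) ≠ 0 := by
    have : d ≠ 0 := by omega
    exact_mod_cast this
  have hFu := h u hu
  set f : ℂ → ℂ := fun t => wd (FF X u) (FF X (u + t • qq u)) with hf
  have hf0 : f 0 = 0 := by
    rw [hf]
    simp only [zero_smul, add_zero]
    unfold wd
    ring
  have hfd : HasDerivAt f (JJ X u / d) 0 := by
    have e1 := hev_line X.1 u (qq u) 0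
    have e2 := hev_line X.2 u (qq u) 0
    rw [zero_smul, add_zero] at e1 e2
    have e3 := (e2.const_mul (hev X.1 u)).sub (e1.const_mul (hev X.2 u))
    have e4 : JJ X u / d = hev X.1 u * ((qq u).1 * hev1 X.2 u + (qq u).2 * hev2 X.2 u) -
        hev X.2 u * ((qq u).1 * hev1 X.1 u + (qq u).2 * hev2 X.1 u) := by
      rw [← wd_deriv X hu, mul_div_cancel_left₀ _ hd0]
      rfl
    rw [e4]
    exact e3
  have h1 : Tendsto (fun t => ‖f t‖ / ‖t‖) (𝓝[≠] 0) (𝓝 ‖JJ X u / d‖) := by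
    have := (hasDerivAt_iff_tendsto_slope.1 hfd).norm
    refine this.congr fun t => ?_
    rw [slope_def_field, hf0, sub_zero, sub_zero, norm_div]
  have h2 : Tendsto (fun t : ℂ => √(n2 (FF X u)) * √(n2 (FF X (u + t • qq u)))) (𝓝[≠] 0)
      (𝓝 (n2 (FF X u))) := by
    have e1 : Continuous fun t : ℂ => √(n2 (FF X u)) * √(n2 (FF X (u + t • qq u))) := by
      refine continuous_const.mul (Real.continuous_sqrt.comp (n2_cont.comp ((FF_cont X).comp ?_)))
      fun_prop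
    have e2 := (e1.tendsto 0).mono_left (nhdsWithin_le_nhds (s := {0}ᶜ))
    rw [zero_smul, add_zero, Real.mul_self_sqrt hFu.le] at e2
    exact e2
  have h3 := h1.div h2 hFu.ne'
  have h4 : ‖JJ X u / d‖ / n2 (FF X u) = ‖aa X u‖ := by
    unfold aa
    rw [norm_div, norm_div, norm_mul, Complex.norm_real, Real.norm_eq_abs, abs_of_pos hFu, div_div]
  rw [h4] at h3
  have h5 := h3.eventually (lt_mem_nhds (show ‖aa X u‖ - ε < ‖aa X u‖ by linarith))
  rw [eventually_nhdsWithin_iff, Metric.eventually_nhds_iff] at h5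
  obtain ⟨δ, hδ, h6⟩ := h5
  refine ⟨min (δ / 2) (1 / 2), by positivity, fun w hw hwd => ?_⟩
  have hw1 : ‖wd u w‖ < δ / 2 := lt_of_lt_of_le hwd (min_le_left _ _)
  have hw2 : ‖wd u w‖ < 1 / 2 := lt_of_lt_of_le hwd (min_le_right _ _)
  have hcu := cu_norm hu hw
  have hcu1 : 1 / 2 < ‖cu u w‖ := by
    nlinarith [norm_nonneg (wd u w), norm_nonneg (cu u w)]
  have hcu2 : ‖cu u w‖ ≤ 1 := by
    nlinarith [norm_nonneg (wd u w), norm_nonneg (cu u w)]
  have hcu0 : cu u w ≠ 0 := by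
    intro h7
    rw [h7, norm_zero] at hcu1
    linarith
  by_cases h0 : wd u w = 0
  · rw [h0, norm_zero, mul_zero]
    exact norm_nonneg _
  set t : ℂ := wd u w / cu u w with ht
  have ht0 : t ≠ 0 := div_ne_zero h0 hcu0
  have htn : ‖t‖ = ‖wd u w‖ / ‖cu u w‖ := norm_div _ _
  have ht1 : ‖t‖ < δ := by
    rw [htn, div_lt_iff₀ (by linarith)]
    nlinarith
  have ht2 : ‖wd u w‖ ≤ ‖t‖ := by
    rw [htn, le_div_iff₀ (by linarith)]
    nlinarith [norm_nonneg (wd u w)]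
  have h7 := h6 (y := t) (by rwa [dist_zero_right]) ht0
  have hwt : w = cu u w • (u + t • qq u) := by
    conv_lhs => rw [decomp hu w]
    rw [smul_add, smul_smul, ht, mul_div_cancel₀ _ hcu0]
  have hne : (u + t • qq u).1 ≠ 0 ∨ (u + t • qq u).2 ≠ 0 := by
    rw [hwt] at hw
    by_contra hcon
    push Not at hcon
    unfold IsU n2 at hw
    simp only [Prod.smul_fst, Prod.smul_snd, smul_eq_mul, hcon.1, hcon.2, mul_zero, norm_zero] at hw
    norm_num at hw
  have hFt : 0 < n2 (FF X (u + t • qq u)) := h.ne hne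
  have key : ‖wd (nx X u) (nx X w)‖ = ‖f t‖ / (√(n2 (FF X u)) * √(n2 (FF X (u + t • qq u)))) := by
    have e1 : FF X w = cu u w ^ d • FF X (u + t • qq u) := by
      conv_lhs => rw [hwt]
      rw [FF_smul]
    have e2 : 0 < ‖cu u w ^ d‖ := norm_pos_iff.2 (pow_ne_zero _ hcu0)
    have e3 : √(n2 (FF X w)) = ‖cu u w ^ d‖ * √(n2 (FF X (u + t • qq u))) := by
      rw [e1, n2_smul, Real.sqrt_mul (by positivity), Real.sqrt_sq e2.le]
    rw [nx_eq, nx_eq, wd_smul_left, wd_smul_right, norm_mul, norm_mul, e3, e1, wd_smul_right, norm_mul,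
      Complex.norm_real, Complex.norm_real, Real.norm_eq_abs, Real.norm_eq_abs]
    have e4 : 0 < √(n2 (FF X u)) := Real.sqrt_pos.2 hFu
    have e5 : 0 < √(n2 (FF X (u + t • qq u))) := Real.sqrt_pos.2 hFt
    rw [abs_of_pos (by positivity), abs_of_pos (by positivity)]
    rw [hf]
    field_simp
  rw [key]
  have h8 : (‖aa X u‖ - ε) * ‖t‖ ≤ ‖f t‖ / (√(n2 (FF X u)) * √(n2 (FF X (u + t • qq u)))) := by
    have h9 : 0 < ‖t‖ := norm_pos_iff.2 ht0
    have h10 : ‖f t‖ / (√(n2 (FF X u)) * √(n2 (FF X (u + t • qq u)))) =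
        (‖f t‖ / ‖t‖ / (√(n2 (FF X u)) * √(n2 (FF X (u + t • qq u))))) * ‖t‖ := by
      field_simp
    rw [h10]
    exact mul_le_mul_of_nonneg_right h7.le h9.le
  rcases le_or_gt 0 (‖aa X u‖ - ε) with h9 | h9
  · exact (mul_le_mul_of_nonneg_left ht2 h9).trans h8
  · refine le_trans ?_ (by positivity)
    exact mul_nonpos_of_nonpos_of_nonneg h9.le (norm_nonneg _)

/-- one step of the map in the chordal metric -/
theorem Nz.step (hd : 1 ≤ d) {X : CV d} (h : Nz X) {u : ℂ × ℂ} (hu : IsU u) {θ : ℝ} (hθ : θ < 1) :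
    ∀ᶠ z in 𝓝 (pr u), θ * ‖aa X u‖ * Pool.Agent.H91.Fatou.chord (pr u) z ≤
      Pool.Agent.H91.Fatou.chord (Rf X (pr u)) (Rf X z) := by
  by_cases ha : aa X u = 0
  · filter_upwards with z
    rw [ha, norm_zero, mul_zero, zero_mul]
    exact chord_nonneg _ _
  have ha' : 0 < ‖aa X u‖ := norm_pos_iff.2 ha
  obtain ⟨δ, hδ, hloc⟩ := h.loc hd hu (ε := (1 - θ) * ‖aa X u‖) (mul_pos (by linarith) ha')
  have h1 : {z | Pool.Agent.H91.Fatou.chord z (pr u) < δ} ∈ 𝓝 (pr u) :=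
    (isOpen_cball (pr u) δ).mem_nhds (by
      show Pool.Agent.H91.Fatou.chord (pr u) (pr u) < δ
      rw [chord_self]; exact hδ)
  filter_upwards [h1] with z hz
  obtain ⟨w, hw, rfl⟩ := exists_pr z
  have h2 : ‖wd w u‖ = ‖wd u w‖ := by
    rw [← norm_neg]
    congr 1
    unfold wd
    ring
  have hz' : ‖wd u w‖ < δ := by
    rw [← h2, ← chord_pr hw hu]
    exact hz
  have h3 := hloc w hw hz'
  rw [h.Rf_nx hu, h.Rf_nx hw, chord_pr hu hw, chord_pr (n2_nx X (h u hu)) (n2_nx X (h w hw))]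
  refine le_trans (le_of_eq ?_) h3
  ring

theorem Nz.ce_aux (hd : 1 ≤ d) {X : CV d} (h : Nz X) {c : ℂ × ℂ} (hc : IsU c) (n : ℕ) :
    ∀ θ : ℝ, 0 < θ → θ < 1 → ∀ᶠ y in 𝓝 (Rf X (pr c)),
      θ * Ph X c n * Pool.Agent.H91.Fatou.chord (Rf X (pr c)) y ≤
        Pool.Agent.H91.Fatou.chord ((Rf X)^[n] (Rf X (pr c))) ((Rf X)^[n] y) := by
  induction n with
  | zero =>
    intro θ h0 h1
    filter_upwards with y
    have : Ph X c 0 = 1 := by unfold Ph; simp
    rw [this, mul_one]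
    show θ * Pool.Agent.H91.Fatou.chord (Rf X (pr c)) y ≤ Pool.Agent.H91.Fatou.chord (Rf X (pr c)) y
    nlinarith [chord_nonneg (Rf X (pr c)) y]
  | succ n ih =>
    intro θ h0 h1
    have hob := h.ob hc n
    have hcont : Continuous (Rf X) := rat_continuous h.coprime
    have h2 := ih ((1 + θ) / 2) (by linarith) (by linarith)
    have h3 := h.step hd hob.1 (θ := (1 + θ) / 2) (by linarith)
    rw [← hob.2] at h3
    have h4 := ((hcont.iterate n).tendsto (Rf X (pr c))).eventually h3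
    filter_upwards [h2, h4] with y hy1 hy2
    rw [Function.iterate_succ_apply', Function.iterate_succ_apply']
    refine le_trans ?_ hy2
    have h5 : Ph X c (n + 1) = Ph X c n * ‖aa X (Pool.H70.SF.ob X c n)‖ := by
      unfold Ph
      rw [Finset.prod_range_succ]
      rfl
    rw [h5]
    have h6 : 0 ≤ ‖aa X (Pool.H70.SF.ob X c n)‖ := norm_nonneg _
    have h7 : 0 ≤ Ph X c n := by
      unfold Ph
      exact Finset.prod_nonneg fun _ _ => norm_nonneg _
    have h8 := chord_nonneg (Rf X (pr c)) y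
    have h9 : θ ≤ (1 + θ) / 2 * ((1 + θ) / 2) := by nlinarith [sq_nonneg (1 - θ)]
    calc θ * (Ph X c n * ‖aa X (Pool.H70.SF.ob X c n)‖) * Pool.Agent.H91.Fatou.chord (Rf X (pr c)) y
        ≤ ((1 + θ) / 2 * ((1 + θ) / 2)) * (Ph X c n * ‖aa X (Pool.H70.SF.ob X c n)‖) *
          Pool.Agent.H91.Fatou.chord (Rf X (pr c)) y := by gcongr
      _ = (1 + θ) / 2 * ‖aa X (Pool.H70.SF.ob X c n)‖ *
          ((1 + θ) / 2 * Ph X c n * Pool.Agent.H91.Fatou.chord (Rf X (pr c)) y) := by ring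
      _ ≤ _ := by
        refine mul_le_mul_of_nonneg_left hy1 ?_
        have : 0 ≤ (1 + θ) / 2 := by linarith
        positivity

/-- exponential growth of the phase derivatives gives the Collet-Eckmann condition -/
theorem Nz.ce (hd : 1 ≤ d) {X : CV d} (h : Nz X) {c : ℂ × ℂ} (hc : IsU c) {C lam : ℝ} (hC : 0 < C) (hl : 1 < lam)
    (hg : ∀ n, C * lam ^ n ≤ Ph X c n) : Pool.Agent.H91.CE.CEAt (Rf X) (Rf X (pr c)) := by
  refine ⟨C / 2, lam, by positivity, hl, fun n => ?_⟩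
  filter_upwards [h.ce_aux hd hc n (1 / 2) (by norm_num) (by norm_num)] with y hy
  rw [chord_eq', chord_eq']
  refine le_trans ?_ hy
  refine mul_le_mul_of_nonneg_right ?_ (chord_nonneg _ _)
  have := hg n
  linarith

theorem Nz.inf {X : CV d} (h : Nz X) {c : ℂ × ℂ} (hc : IsU c)
    (hinf : ∀ n m, n < m → wd (Pool.H70.SF.ob X c n) (Pool.H70.SF.ob X c m) ≠ 0) :
    (Set.range fun k : ℕ => (Rf X)^[k] (pr c)).Infinite := by
  have h1 : Function.Injective fun k : ℕ => (Rf X)^[k + 1] (pr c) := by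
    intro n m hnm
    by_contra hne
    have key : ∀ n m, n < m → (Rf X)^[n + 1] (pr c) = (Rf X)^[m + 1] (pr c) → False := by
      intro n m hlt he
      rw [Function.iterate_succ_apply, Function.iterate_succ_apply, (h.ob hc n).2, (h.ob hc m).2,
        pr_eq_iff (h.ob hc n).1 (h.ob hc m).1] at he
      exact hinf n m hlt he
    rcases lt_or_gt_of_ne hne with hlt | hlt
    · exact key n m hlt hnm
    · exact key m n hlt hnm.symm
  refine Set.Infinite.mono ?_ (Set.infinite_range_of_injective h1)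
  rintro _ ⟨k, rfl⟩
  exact ⟨k + 1, rfl⟩

/-- `cs_main` in homogeneous coordinates -/
theorem bridge (hd : 2 ≤ d) {X : CV d} (h : Nz X)
    (hce : ∀ c, IsU c → JJ X c = 0 → ∃ C lam : ℝ, 0 < C ∧ 1 < lam ∧ ∀ n, C * lam ^ n ≤ Ph X c n)
    (hex : ∃ c, IsU c ∧ JJ X c = 0 ∧
      ∀ n m, n < m → wd (Pool.H70.SF.ob X c n) (Pool.H70.SF.ob X c m) ≠ 0) {ε : ℝ} (hε : 0 < ε) :
    ∃ w ∈ ball X ε, HypDeg w := by
  refine Pool.Agent.H91.CS.cs_main hd h.coprime h.deg ?_ ?_ hε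
  · intro x hx
    right
    obtain ⟨c, hc, rfl⟩ := exists_pr x
    rw [h.crit_iff (by omega) hc] at hx
    obtain ⟨C, lam, hC, hl, hg⟩ := hce c hc hx
    exact h.ce (by omega) hc hC hl hg
  · obtain ⟨c, hc, hJ, hinf⟩ := hex
    exact ⟨pr c, (h.crit_iff (by omega) hc).2 hJ, h.inf hc hinf⟩

end Pool.H26.SF
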