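import Pool.Agent.H70.SF.EV
import Pool.Agent.H26.SF.BrC

/-!
SMOOTHED FATOU (MP_8f2e1c_an): the exceptional parameters (helper26).

`un e X c n t`: the orbit of the critical value without normalisation, a polynomial in `t`. Up to factors it is
`ob (Tt e t X) c n`, and its derivative at `t = 0` gives `om e X c n`. If the orbit relation `n ~ m` holds for all `t`
then the numbers `‖om e X c l‖` are periodic, so bounded. So if they are not bounded, then the orbit of `c` is infinite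
for all but countably many parameters.
-/

set_option autoImplicit false

open Filter Topology Finset

namespace Pool.H26.SF

open Pool.H70.SF

variable {d : ℕ}

/-- the orbit of the critical value without normalisation -/
noncomputable def un (e : ℂ × ℂ) (X : CV d) (c : ℂ × ℂ) : ℕ → ℂ → ℂ × ℂ
  | 0, t => FF (Tt e t X) c
  | n + 1, t => FF (Tt e t X) (un e X c n t)

theorem nx_ff (X : CV d) {u : ℂ × ℂ} (h : 0 < n2 (FF X u)) :
    ((√(n2 (FF X u)) : ℝ) : ℂ) ≠ 0 ∧ FF X u = ((√(n2 (FF X u)) : ℝ) : ℂ) • nx X u := by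
  have h1 : 0 < √(n2 (FF X u)) := Real.sqrt_pos.2 h
  refine ⟨by exact_mod_cast h1.ne', ?_⟩
  rw [nx_eq, smul_smul, ← Complex.ofReal_mul, mul_inv_cancel₀ h1.ne', Complex.ofReal_one, one_smul]

theorem un_ob {X : CV d} (h : ND X) (e : ℂ × ℂ) {c : ℂ × ℂ} (hc : IsU c) (n : ℕ) (t : ℂ) :
    ∃ z : ℂ, z ≠ 0 ∧ un e X c n t = z • ob (Tt e t X) c n := by
  have ht := h.Tt e t
  induction n with
  | zero =>
    have h1 := nx_ff (Tt e t X) (ht c hc)
    exact ⟨_, h1.1, h1.2⟩
  | succ n ih =>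
    obtain ⟨z, hz, h1⟩ := ih
    have h2 := nx_ff (Tt e t X) (ht _ (ht.ob hc n))
    refine ⟨z ^ d * ((√(n2 (FF (Tt e t X) (ob (Tt e t X) c n))) : ℝ) : ℂ), mul_ne_zero (pow_ne_zero _ hz) h2.1, ?_⟩
    show FF (Tt e t X) (un e X c n t) = _ • nx (Tt e t X) (ob (Tt e t X) c n)
    rw [h1, FF_smul, mul_smul, ← h2.2]

theorem Nd_smul (e : ℂ × ℂ) (z : ℂ) (u : ℂ × ℂ) : Nd e (z • u) = z • Nd e u := by
  unfold Nd
  rw [wd_smul_right, smul_smul]

/-- polynomial dependence on the parameter -/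
theorem un_poly (e : ℂ × ℂ) (X : CV d) (c : ℂ × ℂ) (n : ℕ) :
    ∃ A B : Polynomial ℂ, ∀ t, un e X c n t = (A.eval t, B.eval t) := by
  have key : ∀ (A B : Polynomial ℂ) (u : ℂ → ℂ × ℂ), (∀ t, u t = (A.eval t, B.eval t)) →
      ∃ A' B' : Polynomial ℂ, ∀ t, FF (Tt e t X) (u t) = (A'.eval t, B'.eval t) := by
    intro A B u hu
    have h1 : ∀ p : Fin (d + 1) → ℂ, ∃ P : Polynomial ℂ, ∀ t, hev p (u t) = P.eval t := by
      intro p
      refine ⟨∑ k : Fin (d + 1), Polynomial.C (p k) * (A ^ (k : ℕ) * B ^ (d - (k : ℕ))), fun t => ?_⟩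
      rw [hu t]
      unfold hev
      rw [Polynomial.eval_finsetSum]
      refine Finset.sum_congr rfl fun k _ => ?_
      rw [Polynomial.eval_mul, Polynomial.eval_C, Polynomial.eval_mul, Polynomial.eval_pow, Polynomial.eval_pow]
      ring
    obtain ⟨P, hP⟩ := h1 X.1
    obtain ⟨Q, hQ⟩ := h1 X.2
    refine ⟨P + Polynomial.X * ((Polynomial.C e.1 * Q - Polynomial.C e.2 * P) * Polynomial.C e.1),
      Q + Polynomial.X * ((Polynomial.C e.1 * Q - Polynomial.C e.2 * P) * Polynomial.C e.2), fun t => ?_⟩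
    rw [FF_Tt]
    have h2 : FF X (u t) = (P.eval t, Q.eval t) := by
      unfold FF
      rw [hP, hQ]
    rw [h2]
    unfold Nd wd
    ext
    · simp
    · simp
  induction n with
  | zero =>
    obtain ⟨A, B, h⟩ := key (Polynomial.C c.1) (Polynomial.C c.2) (fun _ => c) (fun t => by simp)
    exact ⟨A, B, h⟩
  | succ n ih =>
    obtain ⟨A, B, h⟩ := ih
    obtain ⟨A', B', h'⟩ := key A B (un e X c n) h
    exact ⟨A', B', h'⟩

theorem wd_poly (e : ℂ × ℂ) (X : CV d) (c : ℂ × ℂ) (n m : ℕ) :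
    ∃ P : Polynomial ℂ, ∀ t, wd (un e X c n t) (un e X c m t) = P.eval t := by
  obtain ⟨A, B, h⟩ := un_poly e X c n
  obtain ⟨A', B', h'⟩ := un_poly e X c m
  refine ⟨A * B' - B * A', fun t => ?_⟩
  rw [h, h']
  unfold wd
  simp

/-- parallel vectors -/
theorem par_of_wd {u v : ℂ × ℂ} (hu : IsU u) (hv : IsU v) (h : wd u v = 0) : ∃ g : ℂ, ‖g‖ = 1 ∧ v = g • u := by
  have h1 : wd v u = 0 := by
    unfold wd at h ⊢
    linear_combination -h
  have h2 := smul_of_wd hu h1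
  refine ⟨_, ?_, h2⟩
  have h3 : n2 v = 1 := hv
  rw [h2, n2_smul, show n2 u = 1 from hu, mul_one] at h3
  have h4 := norm_nonneg (v.1 * (starRingEnd ℂ) u.1 + v.2 * (starRingEnd ℂ) u.2)
  nlinarith

theorem rel_succ {X : CV d} (h : ND X) (e : ℂ × ℂ) {c : ℂ × ℂ} (hc : IsU c) {n m : ℕ}
    (hw : ∀ t, wd (un e X c n t) (un e X c m t) = 0) :
    ∀ t, wd (un e X c (n + 1) t) (un e X c (m + 1) t) = 0 := by
  intro t
  have ht := h.Tt e t
  obtain ⟨z, hz, h1⟩ := un_ob h e hc n t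
  obtain ⟨y, hy, h2⟩ := un_ob h e hc m t
  have h3 := hw t
  rw [h1, h2, wd_smul_left, wd_smul_right] at h3
  have h4 : wd (ob (Tt e t X) c n) (ob (Tt e t X) c m) = 0 := by
    rcases mul_eq_zero.1 h3 with h5 | h5
    · exact absurd h5 hz
    · rcases mul_eq_zero.1 h5 with h6 | h6
      · exact absurd h6 hy
      · exact h6
  obtain ⟨g, hg, h5⟩ := par_of_wd (ht.ob hc n) (ht.ob hc m) h4
  show wd (FF (Tt e t X) (un e X c n t)) (FF (Tt e t X) (un e X c m t)) = 0
  rw [h1, h2, h5, FF_smul, FF_smul, FF_smul, wd_smul_left, wd_smul_right, wd_smul_right]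
  have : wd (FF (Tt e t X) (ob (Tt e t X) c n)) (FF (Tt e t X) (ob (Tt e t X) c n)) = 0 := by
    unfold wd
    ring
  rw [this]
  ring

/-- derivative of the homogeneous map along a curve -/
theorem FF_curve (X : CV d) {u : ℂ → ℂ × ℂ} {v : ℂ × ℂ} {t0 : ℂ} (hu : HasDerivAt u v t0) :
    HasDerivAt (fun t => FF X (u t)) (v.1 * hev1 X.1 (u t0) + v.2 * hev2 X.1 (u t0),
      v.1 * hev1 X.2 (u t0) + v.2 * hev2 X.2 (u t0)) t0 := by
  have e1 : HasDerivAt (fun t => (u t).1) v.1 t0 :=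
    ((ContinuousLinearMap.fst ℂ ℂ ℂ).hasFDerivAt.comp_hasDerivAt t0 hu)
  have e2 : HasDerivAt (fun t => (u t).2) v.2 t0 :=
    ((ContinuousLinearMap.snd ℂ ℂ ℂ).hasFDerivAt.comp_hasDerivAt t0 hu)
  have key : ∀ p : Fin (d + 1) → ℂ, HasDerivAt (fun t => hev p (u t)) (v.1 * hev1 p (u t0) + v.2 * hev2 p (u t0)) t0 := by
    intro p
    unfold hev hev1 hev2
    rw [Finset.mul_sum, Finset.mul_sum, ← Finset.sum_add_distrib]
    refine HasDerivAt.fun_sum fun k _ => ?_
    have e3 := e1.pow (k : ℕ)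
    have e4 := e2.pow (d - (k : ℕ))
    have e5 := (e3.const_mul (p k)).mul e4
    convert! e5 using 1
    simp only [Pi.pow_apply]
    ring
  exact (key X.1).prodMk (key X.2)

/-- the derivative of the orbit at `t = 0` -/
theorem un_deriv (hd : 1 ≤ d) {X : CV d} (h : ND X) (e : ℂ × ℂ) {c : ℂ × ℂ} (hc : IsU c) (n : ℕ) :
    ∃ (z : ℂ) (v : ℂ × ℂ), z ≠ 0 ∧ un e X c n 0 = z • ob X c n ∧ HasDerivAt (fun t => un e X c n t) v 0 ∧
      wd (un e X c n 0) v = z ^ 2 * om e X c n := by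
  have hd0 : (d : ℂ) ≠ 0 := by
    have : d ≠ 0 := by omega
    exact_mod_cast this
  have step : ∀ (u : ℂ → ℂ × ℂ) (v : ℂ × ℂ), HasDerivAt u v 0 →
      HasDerivAt (fun t => FF (Tt e t X) (u t)) ((v.1 * hev1 X.1 (u 0) + v.2 * hev2 X.1 (u 0),
        v.1 * hev1 X.2 (u 0) + v.2 * hev2 X.2 (u 0)) + Nd e (FF X (u 0))) 0 := by
    intro u v hu
    have h1 := FF_curve X hu
    have h2 : (fun t => FF (Tt e t X) (u t)) = fun t => FF X (u t) + t • Nd e (FF X (u t)) := by
      funext t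
      rw [FF_Tt]
    rw [h2]
    refine h1.add ?_
    have e1 : HasDerivAt (fun t => (FF X (u t)).1) _ 0 :=
      ((ContinuousLinearMap.fst ℂ ℂ ℂ).hasFDerivAt.comp_hasDerivAt 0 h1)
    have e2 : HasDerivAt (fun t => (FF X (u t)).2) _ 0 :=
      ((ContinuousLinearMap.snd ℂ ℂ ℂ).hasFDerivAt.comp_hasDerivAt 0 h1)
    have e3 := ((e2.const_mul e.1).sub (e1.const_mul e.2)).smul_const e
    have e4 := (hasDerivAt_id (0 : ℂ)).smul e3
    simp only [id_eq, zero_smul, one_smul, zero_add] at e4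
    exact e4
  induction n with
  | zero =>
    have h1 := nx_ff X (h c hc)
    have h2 := step (fun _ => c) 0 (hasDerivAt_const 0 c)
    simp only [Prod.fst_zero, Prod.snd_zero, zero_mul, add_zero] at h2
    have h3 : un e X c 0 0 = FF X c := by
      show FF (Tt e 0 X) c = FF X c
      rw [Tt_zero]
    refine ⟨_, _, h1.1, ?_, h2, ?_⟩
    · rw [h3]
      exact h1.2
    · rw [h3]
      have h4 : ((0 : ℂ), (0 : ℂ)) + Nd e (FF X c) = Nd e (FF X c) := by
        rw [show ((0 : ℂ), (0 : ℂ)) = 0 from rfl, zero_add]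
      rw [h4]
      show _ = _ * wd (nx X c) (Nd e (nx X c))
      conv_lhs => rw [h1.2, Nd_smul, wd_smul_left, wd_smul_right]
      ring
  | succ n ih =>
    obtain ⟨z, v, hz, h1, h2, h3⟩ := ih
    have h4 := nx_ff X (h _ (h.ob hc n))
    have h5 := step _ v h2
    have h0 : un e X c (n + 1) 0 = FF X (un e X c n 0) := by
      show FF (Tt e 0 X) _ = _
      rw [Tt_zero]
    have h6 : FF X (un e X c n 0) = (z ^ d * ((√(n2 (FF X (ob X c n))) : ℝ) : ℂ)) • ob X c (n + 1) := by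
      show _ = _ • nx X (ob X c n)
      rw [h1, FF_smul, mul_smul, ← h4.2]
    refine ⟨z ^ d * ((√(n2 (FF X (ob X c n))) : ℝ) : ℂ), _, mul_ne_zero (pow_ne_zero _ hz) h4.1, ?_, h5, ?_⟩
    · rw [h0, h6]
    · rw [h0]
      have h7 : wd (FF X (un e X c n 0)) ((v.1 * hev1 X.1 (un e X c n 0) + v.2 * hev2 X.1 (un e X c n 0),
          v.1 * hev1 X.2 (un e X c n 0) + v.2 * hev2 X.2 (un e X c n 0))) =
          z ^ 2 * om e X c n * ((z ^ (d - 1)) ^ 2 * JJ X (ob X c n)) / d := by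
        rw [eq_div_iff hd0]
        have e1 := hev_euler X.1 (un e X c n 0)
        have e2 := hev_euler X.2 (un e X c n 0)
        have e3 : wd (un e X c n 0) v * JJ X (un e X c n 0) =
            z ^ 2 * om e X c n * ((z ^ (d - 1)) ^ 2 * JJ X (ob X c n)) := by
          rw [h3, h1, JJ_smul]
        rw [← e3]
        set U := un e X c n 0
        unfold wd JJ FF
        simp only
        linear_combination (-(v.1 * hev1 X.2 U + v.2 * hev2 X.2 U)) * e1 +
          (v.1 * hev1 X.1 U + v.2 * hev2 X.1 U) * e2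
      have h8 : wd (FF X (un e X c n 0)) (Nd e (FF X (un e X c n 0))) =
          (z ^ d * ((√(n2 (FF X (ob X c n))) : ℝ) : ℂ)) ^ 2 * wd (ob X c (n + 1)) (Nd e (ob X c (n + 1))) := by
        rw [h6, Nd_smul, wd_smul_left, wd_smul_right]
        ring
      have h9 : ∀ a b v : ℂ × ℂ, wd v (a + b) = wd v a + wd v b := by
        intro a b v
        unfold wd
        simp only [Prod.fst_add, Prod.snd_add]
        ring
      rw [h9, h7, h8]
      show _ = _ * (al X c n * om e X c n + wd (ob X c (n + 1)) (Nd e (ob X c (n + 1))))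
      have h10 : (((√(n2 (FF X (ob X c n))) : ℝ) : ℂ)) ^ 2 * al X c n = JJ X (ob X c n) / d := by
        show _ * (JJ X (ob X c n) / ((d : ℂ) * ((n2 (FF X (ob X c n)) : ℝ) : ℂ))) = _
        have h11 : (((√(n2 (FF X (ob X c n))) : ℝ) : ℂ)) ^ 2 = ((n2 (FF X (ob X c n)) : ℝ) : ℂ) := by
          rw [← Complex.ofReal_pow, Real.sq_sqrt (h _ (h.ob hc n)).le]
        rw [h11]
        have h12 : ((n2 (FF X (ob X c n)) : ℝ) : ℂ) ≠ 0 := by
          exact_mod_cast (h _ (h.ob hc n)).ne'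
        field_simp
      have h13 : z ^ 2 * (z ^ (d - 1)) ^ 2 = (z ^ d) ^ 2 := by
        obtain ⟨m, rfl⟩ : ∃ m, d = m + 1 := ⟨d - 1, by omega⟩
        rw [Nat.add_sub_cancel]
        ring
      have h14 : z ^ 2 * om e X c n * ((z ^ (d - 1)) ^ 2 * JJ X (ob X c n)) / d =
          (z ^ 2 * (z ^ (d - 1)) ^ 2) * (JJ X (ob X c n) / d) * om e X c n := by ring
      rw [h14, h13, ← h10]
      ring

/-- an identical orbit relation makes the parameter derivatives periodic -/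
theorem om_rel (hd : 1 ≤ d) {X : CV d} (h : ND X) (e : ℂ × ℂ) {c : ℂ × ℂ} (hc : IsU c) {n m : ℕ}
    (hw : ∀ t, wd (un e X c n t) (un e X c m t) = 0) : ‖om e X c n‖ = ‖om e X c m‖ := by
  obtain ⟨z, v, hz, h1, h2, h3⟩ := un_deriv hd h e hc n
  obtain ⟨y, w, hy, h4, h5, h6⟩ := un_deriv hd h e hc m
  have e1 : HasDerivAt (fun t => (un e X c n t).1) v.1 0 :=
    ((ContinuousLinearMap.fst ℂ ℂ ℂ).hasFDerivAt.comp_hasDerivAt 0 h2)
  have e2 : HasDerivAt (fun t => (un e X c n t).2) v.2 0 :=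
    ((ContinuousLinearMap.snd ℂ ℂ ℂ).hasFDerivAt.comp_hasDerivAt 0 h2)
  have e3 : HasDerivAt (fun t => (un e X c m t).1) w.1 0 :=
    ((ContinuousLinearMap.fst ℂ ℂ ℂ).hasFDerivAt.comp_hasDerivAt 0 h5)
  have e4 : HasDerivAt (fun t => (un e X c m t).2) w.2 0 :=
    ((ContinuousLinearMap.snd ℂ ℂ ℂ).hasFDerivAt.comp_hasDerivAt 0 h5)
  have e5 := (e1.mul e4).sub (e2.mul e3)
  have e6 : HasDerivAt (fun t => wd (un e X c n t) (un e X c m t)) 0 0 := by
    have : (fun t => wd (un e X c n t) (un e X c m t)) = fun _ => 0 := funext hw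
    rw [this]
    exact hasDerivAt_const 0 0
  have e7 := e5.unique e6
  have hw0 := hw 0
  rw [h1, h4, wd_smul_left, wd_smul_right] at hw0
  have h7 : wd (ob X c n) (ob X c m) = 0 := by
    rcases mul_eq_zero.1 hw0 with h5 | h5
    · exact absurd h5 hz
    · rcases mul_eq_zero.1 h5 with h6 | h6
      · exact absurd h6 hy
      · exact h6
  obtain ⟨g, hg, h8⟩ := par_of_wd (h.ob hc n) (h.ob hc m) h7
  have hg0 : g ≠ 0 := by
    intro h9
    rw [h9, norm_zero] at hg
    exact zero_ne_one hg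
  set O := ob X c n
  rw [h8] at h4
  rw [h1] at h3
  rw [h4] at h6
  have e8 : v.1 * (un e X c m 0).2 + (un e X c n 0).1 * w.2 - (v.2 * (un e X c m 0).1 + (un e X c n 0).2 * w.1) = 0 :=
    e7
  rw [h4, h1] at e8
  unfold wd at h3 h6
  simp only [Prod.smul_fst, Prod.smul_snd, smul_eq_mul] at e8 h3 h6
  have key : y * z * om e X c m = y * z * (g ^ 2 * om e X c n) := by
    have k1 : y * g * (z ^ 2 * om e X c n) = z * (y * g * (O.1 * v.2 - O.2 * v.1)) * z / z := by
      rw [← h3]; field_simp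
    have k2 : y * g * (O.1 * v.2 - O.2 * v.1) = z * (O.1 * w.2 - O.2 * w.1) := by
      linear_combination -e8
    have k3 : y * g * (z * (O.1 * w.2 - O.2 * w.1)) = z * (y ^ 2 * om e X c m) := by
      rw [← h6]; ring
    have k4 : y * g * (y * g * (O.1 * v.2 - O.2 * v.1)) = z * (y ^ 2 * om e X c m) := by
      rw [k2, k3]
    have k5 : z * (O.1 * v.2 - O.2 * v.1) = z ^ 2 * om e X c n := by
      rw [← h3]; ring
    have k6 : z * (z * (y ^ 2 * om e X c m)) = (y * g) ^ 2 * (z ^ 2 * om e X c n) := by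
      rw [← k4, ← k5]; ring
    have k7 : y * z * (y * z * om e X c m) = y * z * (y * z * (g ^ 2 * om e X c n)) := by
      linear_combination k6
    exact mul_left_cancel₀ (mul_ne_zero hy hz) k7
  have key2 := mul_left_cancel₀ (mul_ne_zero hy hz) key
  rw [key2, norm_mul, norm_pow, hg]
  ring

/-- if the parameter derivatives are not bounded then no orbit relation holds identically -/
theorem no_rel (hd : 1 ≤ d) {X : CV d} (h : ND X) (e : ℂ × ℂ) {c : ℂ × ℂ} (hc : IsU c)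
    (hub : ∀ B : ℝ, ∃ l, B < ‖om e X c l‖) {n m : ℕ} (hnm : n < m) :
    ∃ t, wd (un e X c n t) (un e X c m t) ≠ 0 := by
  by_contra hcon
  push Not at hcon
  have h1 : ∀ j, ∀ t, wd (un e X c (n + j) t) (un e X c (m + j) t) = 0 := by
    intro j
    induction j with
    | zero => exact hcon
    | succ j ih => exact rel_succ h e hc ih
  obtain ⟨B, hB⟩ : ∃ B : ℝ, ∀ l < m, ‖om e X c l‖ ≤ B := by
    refine ⟨∑ l ∈ Finset.range m, ‖om e X c l‖, fun l hl => ?_⟩
    exact Finset.single_le_sum (f := fun l => ‖om e X c l‖) (fun _ _ => norm_nonneg _) (Finset.mem_range.2 hl)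
  have h2 : ∀ l, ‖om e X c l‖ ≤ B := by
    intro l
    induction l using Nat.strong_induction_on with
    | _ l ih =>
      rcases lt_or_ge l m with hl | hl
      · exact hB l hl
      · obtain ⟨j, rfl⟩ := Nat.exists_eq_add_of_le hl
        rw [← om_rel hd h e hc (h1 j)]
        exact ih _ (by omega)
  obtain ⟨l, hl⟩ := hub B
  exact absurd (h2 l) (not_le.2 hl)

/-- the orbit of `c` is infinite for all but countably many parameters -/
theorem exc (hd : 1 ≤ d) {X : CV d} (h : ND X) (e : ℂ × ℂ) {c : ℂ × ℂ} (hc : IsU c)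
    (hub : ∀ B : ℝ, ∃ l, B < ‖om e X c l‖) :
    ∃ ex : ℕ → ℂ, ∀ t, (∀ m, t ≠ ex m) → ∀ n m, n < m →
      wd (ob (Tt e t X) c n) (ob (Tt e t X) c m) ≠ 0 := by
  set S : Set ℂ := ⋃ n : ℕ, ⋃ m : ℕ, ⋃ _ : n < m, {t | wd (un e X c n t) (un e X c m t) = 0} with hS
  have hcount : S.Countable := by
    refine Set.countable_iUnion fun n => Set.countable_iUnion fun m => Set.countable_iUnion fun hnm => ?_
    obtain ⟨P, hP⟩ := wd_poly e X c n m
    obtain ⟨t0, ht0⟩ := no_rel hd h e hc hub hnm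
    have hP0 : P ≠ 0 := by
      intro h1
      rw [hP, h1, Polynomial.eval_zero] at ht0
      exact ht0 rfl
    have : {t | wd (un e X c n t) (un e X c m t) = 0} ⊆ {t | P.IsRoot t} := by
      intro t ht
      show P.eval t = 0
      rw [← hP]
      exact ht
    exact ((Polynomial.finite_setOfPred_isRoot hP0).subset this).countable
  obtain ⟨ex, hex⟩ := (hcount.union (Set.countable_singleton (0 : ℂ))).exists_eq_range
    ⟨0, Or.inr rfl⟩
  refine ⟨ex, fun t ht n m hnm h0 => ?_⟩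
  have h1 : t ∈ S := by
    rw [hS]
    refine Set.mem_iUnion.2 ⟨n, Set.mem_iUnion.2 ⟨m, Set.mem_iUnion.2 ⟨hnm, ?_⟩⟩⟩
    show wd (un e X c n t) (un e X c m t) = 0
    obtain ⟨z, hz, h1⟩ := un_ob h e hc n t
    obtain ⟨y, hy, h2⟩ := un_ob h e hc m t
    rw [h1, h2, wd_smul_left, wd_smul_right, h0]
    ring
  have h2 : t ∈ Set.range ex := by
    rw [← hex]
    exact Or.inl h1
  obtain ⟨m', hm'⟩ := h2
  exact ht m' hm'.symm

end Pool.H26.SF
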