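import Pool.Agent.H26.SF.Exc
import Pool.Agent.H47.SF.Sph

/-!
SMOOTHED FATOU (MP_8f2e1c_an): the exceptional parameters on the points `{u // IsU u}` (helper26).
-/

set_option autoImplicit false

open Filter Topology Finset

namespace Pool.H26.SF

open Pool.H70.SF Pool.Agent.H47.SF

variable {d : ℕ}

theorem fS_nd {X : CV d} (h : ND X) (u : {u : ℂ × ℂ // IsU u}) : (fS X u : ℂ × ℂ) = nx X u := by
  unfold fS
  have h1 : 0 < nuF X u := Real.sqrt_pos.2 (h u u.2)
  rw [dif_pos h1]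

theorem fS_ob {X : CV d} (h : ND X) (c : {u : ℂ × ℂ // IsU u}) (n : ℕ) :
    ((fS X)^[n + 1] c : ℂ × ℂ) = ob X c n := by
  induction n with
  | zero => exact fS_nd h c
  | succ n ih =>
    rw [Function.iterate_succ_apply', fS_nd h, ih]
    rfl

theorem fS_inf {X : CV d} (h : ND X) (c : {u : ℂ × ℂ // IsU u})
    (hw : ∀ n m, n < m → wd (ob X c n) (ob X c m) ≠ 0) :
    (Set.range fun n : ℕ => (fS X)^[n] c).Infinite := by
  have h1 : Function.Injective fun n : ℕ => (fS X)^[n + 1] c := by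
    intro n m hnm
    by_contra hne
    have key : ∀ n m, n < m → (fS X)^[n + 1] c = (fS X)^[m + 1] c → False := by
      intro n m hlt he
      have h2 := hw n m hlt
      rw [← fS_ob h, ← fS_ob h, he] at h2
      apply h2
      unfold wd
      ring
    rcases lt_or_gt_of_ne hne with hlt | hlt
    · exact key n m hlt hnm
    · exact key m n hlt hnm.symm
  refine Set.Infinite.mono ?_ (Set.infinite_range_of_injective h1)
  rintro _ ⟨k, rfl⟩
  exact ⟨k + 1, rfl⟩

/-- the hypothesis `he` of `end_main` -/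
theorem exc_fS (hd : 1 ≤ d) {X : CV d} (h : ND X) (e : ℂ × ℂ) (c : {u : ℂ × ℂ // IsU u})
    (hub : ∀ B : ℝ, ∃ l, B < ‖om e X c l‖) :
    ∃ ex : ℕ → ℂ, ∀ t, (∀ m, t ≠ ex m) → (Set.range fun n : ℕ => (fS (Tt e t X))^[n] c).Infinite := by
  obtain ⟨ex, hex⟩ := exc hd h e c.2 hub
  exact ⟨ex, fun t ht => fS_inf (h.Tt e t) c (hex t ht)⟩

/-- unbounded parameter derivatives from the transversality and the growth of the phase derivatives -/
theorem om_unbounded {X : CV d} {e c : ℂ × ℂ} {κ : ℝ} (hκ : 0 < κ)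
    (h1 : ∀ᶠ l in atTop, κ * Ph X c l ≤ ‖om e X c l‖) (h2 : ∀ B : ℝ, ∃ᶠ l in atTop, B < Ph X c l) :
    ∀ B : ℝ, ∃ l, B < ‖om e X c l‖ := by
  intro B
  obtain ⟨l, h3, h4⟩ := ((h2 (B / κ)).and_eventually h1).exists
  refine ⟨l, lt_of_lt_of_le ?_ h4⟩
  rw [div_lt_iff₀ hκ] at h3
  linarith

end Pool.H26.SF
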