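import Mathlib

/-!
SMOOTHED FATOU (MP_8f2e1c_an), early stage, module GAU (helper26): the one dimensional Fubini step.

`mu` a measure on `V` invariant under the translations by `t f`, `rho` a density with
`rho X ≤ c ∫ rho (X + t f) dt` (for the Gaussian density `exp (-|X - X0|^2/tau^2)`: `c = |f|^2/(pi tau^2)`, since the
integral of a Gaussian over a complex line is at least the value at any point times `pi tau^2/|f|^2`). If `l` is a
function with `l (X + t f) = l X + t` and `E` is invariant under the translations by `t f`, then
`nu (E and |l| ≤ r) ≤ c pi r^2 nu(E)`.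

Proof: `∫ 1_E 1[|l| ≤ r] rho ≤ c ∫ ∫ 1_E(X) 1[|l X| ≤ r] rho (X + t f) dt dX`
`= c ∫ ∫ 1_E(X) 1[|l X - t| ≤ r] rho X dX dt = c pi r^2 ∫ 1_E rho` (Tonelli, translation `X → X - t f`).
-/

set_option autoImplicit false

open MeasureTheory

namespace Pool.H26.SF

/-- the abstract Fubini step -/
theorem sb1_abs {V : Type*} [AddCommGroup V] [Module ℂ V] [MeasurableSpace V] [MeasurableAdd₂ V]
    (mu : Measure V) [SFinite mu] (f : V) (hT : ∀ t : ℂ, MeasurePreserving (fun X : V => X + t • f) mu mu)
    (hf : Measurable fun t : ℂ => t • f)
    (rho : V → ENNReal) (hrho : Measurable rho) (c : ENNReal)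
    (hc : ∀ X, rho X ≤ c * ∫⁻ t : ℂ, rho (X + t • f))
    (l : V → ℂ) (hl : Measurable l) (hlf : ∀ X, ∀ t : ℂ, l (X + t • f) = l X + t)
    (E : Set V) (hE : MeasurableSet E) (hEf : ∀ X, ∀ t : ℂ, X ∈ E → X + t • f ∈ E)
    (r : ℝ) :
    ∫⁻ X in E ∩ {X | ‖l X‖ ≤ r}, rho X ∂mu ≤
      c * volume (Metric.closedBall (0 : ℂ) r) * ∫⁻ X in E, rho X ∂mu := by
  have hS : MeasurableSet {X : V | ‖l X‖ ≤ r} := measurableSet_le hl.norm measurable_const
  have hES : MeasurableSet (E ∩ {X : V | ‖l X‖ ≤ r}) := hE.inter hS
  have hEiff : ∀ X, ∀ t : ℂ, X + t • f ∈ E ↔ X ∈ E := by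
    intro X t
    refine ⟨fun h => ?_, hEf X t⟩
    have := hEf (X + t • f) (-t) h
    simpa using this
  rw [← lintegral_indicator hES, ← lintegral_indicator hE]
  have hmeas2 : Measurable fun p : V × ℂ => p.1 + p.2 • f :=
    measurable_fst.add (hf.comp measurable_snd)
  calc ∫⁻ X, (E ∩ {X | ‖l X‖ ≤ r}).indicator rho X ∂mu
      ≤ ∫⁻ X, c * (∫⁻ t : ℂ, (E ∩ {X | ‖l X‖ ≤ r}).indicator (fun _ => 1) X * rho (X + t • f)) ∂mu := by
        refine lintegral_mono fun X => ?_
        by_cases hX : X ∈ E ∩ {X | ‖l X‖ ≤ r}
        · simp only [Set.indicator_of_mem hX, one_mul]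
          exact hc X
        · simp only [Set.indicator_of_notMem hX]
          exact zero_le
    _ = c * ∫⁻ X, (∫⁻ t : ℂ, (E ∩ {X | ‖l X‖ ≤ r}).indicator (fun _ => 1) X * rho (X + t • f)) ∂mu := by
        rw [lintegral_const_mul]
        refine Measurable.lintegral_prod_right' (f := fun p : V × ℂ =>
          (E ∩ {X | ‖l X‖ ≤ r}).indicator (fun _ => (1 : ENNReal)) p.1 * rho (p.1 + p.2 • f)) ?_
        exact ((measurable_const.indicator hES).comp measurable_fst).mul (hrho.comp hmeas2)
    _ = c * ∫⁻ t : ℂ, ∫⁻ X, (E ∩ {X | ‖l X‖ ≤ r}).indicator (fun _ => 1) X * rho (X + t • f) ∂mu := by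
        rw [lintegral_lintegral_swap]
        exact (((measurable_const.indicator hES).comp measurable_fst).mul (hrho.comp hmeas2)).aemeasurable
    _ = c * ∫⁻ t : ℂ, ∫⁻ X, (E.indicator (fun _ => 1) X *
          (Metric.closedBall (l X) r).indicator (fun _ => 1) t) * rho X ∂mu := by
        congr 1
        refine lintegral_congr fun t => ?_
        rw [← (hT t).lintegral_comp (f := fun X => (E.indicator (fun _ => (1 : ENNReal)) X *
          (Metric.closedBall (l X) r).indicator (fun _ => 1) t) * rho X)]
        · refine lintegral_congr fun X => ?_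
          congr 1
          rw [hlf X t]
          by_cases h1 : X ∈ E
          · have h2 : X + t • f ∈ E := hEf X t h1
            rw [Set.indicator_of_mem h2, one_mul]
            by_cases h3 : ‖l X‖ ≤ r
            · have h4 : t ∈ Metric.closedBall (l X + t) r := by
                rw [Metric.mem_closedBall, dist_eq_norm]
                have : t - (l X + t) = - l X := by ring
                rw [this, norm_neg]; exact h3
              rw [Set.indicator_of_mem h4, Set.indicator_of_mem (show X ∈ E ∩ {X | ‖l X‖ ≤ r} from ⟨h1, h3⟩)]
            · have h4 : t ∉ Metric.closedBall (l X + t) r := by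
                rw [Metric.mem_closedBall, dist_eq_norm]
                have : t - (l X + t) = - l X := by ring
                rw [this, norm_neg]; exact h3
              rw [Set.indicator_of_notMem h4,
                Set.indicator_of_notMem (show X ∉ E ∩ {X | ‖l X‖ ≤ r} from fun h => h3 h.2)]
          · have h2 : X + t • f ∉ E := fun h => h1 ((hEiff X t).1 h)
            rw [Set.indicator_of_notMem h2, zero_mul,
              Set.indicator_of_notMem (show X ∉ E ∩ {X | ‖l X‖ ≤ r} from fun h => h1 h.1)]
        · refine (((measurable_const.indicator hE)).mul ?_).mul hrho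
          have : (fun X : V => (Metric.closedBall (l X) r).indicator (fun _ => (1 : ENNReal)) t)
              = {X : V | dist t (l X) ≤ r}.indicator (fun _ => 1) := by
            funext X
            by_cases h : dist t (l X) ≤ r
            · rw [Set.indicator_of_mem (Metric.mem_closedBall.2 h),
                Set.indicator_of_mem (show X ∈ {X : V | dist t (l X) ≤ r} from h)]
            · rw [Set.indicator_of_notMem (fun h' => h (Metric.mem_closedBall.1 h')),
                Set.indicator_of_notMem (show X ∉ {X : V | dist t (l X) ≤ r} from h)]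
          rw [this]
          refine measurable_const.indicator ?_
          exact measurableSet_le (measurable_const.dist hl) measurable_const
    _ = c * ∫⁻ X, (∫⁻ t : ℂ, (E.indicator (fun _ => 1) X *
          (Metric.closedBall (l X) r).indicator (fun _ => 1) t) * rho X) ∂mu := by
        congr 1
        rw [lintegral_lintegral_swap]
        refine Measurable.aemeasurable ?_
        have h5 : (fun p : ℂ × V => (Metric.closedBall (l p.2) r).indicator (fun _ => (1 : ENNReal)) p.1)
              = {p : ℂ × V | dist p.1 (l p.2) ≤ r}.indicator (fun _ => 1) := by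
            funext p
            by_cases h : dist p.1 (l p.2) ≤ r
            · rw [Set.indicator_of_mem (Metric.mem_closedBall.2 h),
                Set.indicator_of_mem (show p ∈ {p : ℂ × V | dist p.1 (l p.2) ≤ r} from h)]
            · rw [Set.indicator_of_notMem (fun h' => h (Metric.mem_closedBall.1 h')),
                Set.indicator_of_notMem (show p ∉ {p : ℂ × V | dist p.1 (l p.2) ≤ r} from h)]
        have h6 : Measurable (fun p : ℂ × V =>
            (Metric.closedBall (l p.2) r).indicator (fun _ => (1 : ENNReal)) p.1) := by
          rw [h5]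
          refine measurable_const.indicator ?_
          exact measurableSet_le (measurable_fst.dist (hl.comp measurable_snd)) measurable_const
        exact (((measurable_const.indicator hE).comp measurable_snd).mul h6).mul
          (hrho.comp measurable_snd)
    _ = c * ∫⁻ X, volume (Metric.closedBall (0 : ℂ) r) * E.indicator rho X ∂mu := by
        congr 1
        refine lintegral_congr fun X => ?_
        by_cases h1 : X ∈ E
        · simp only [Set.indicator_of_mem h1, one_mul]
          rw [lintegral_mul_const _ (measurable_const.indicator Metric.isClosed_closedBall.measurableSet),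
            lintegral_indicator Metric.isClosed_closedBall.measurableSet, setLIntegral_one]
          congr 1
          rw [Complex.volume_closedBall, Complex.volume_closedBall]
        · simp only [Set.indicator_of_notMem h1, zero_mul, mul_zero, lintegral_zero]
    _ = c * volume (Metric.closedBall (0 : ℂ) r) * ∫⁻ X, E.indicator rho X ∂mu := by
        rw [lintegral_const_mul _ (hrho.indicator hE), mul_assoc]

end Pool.H26.SF
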