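import Pool.Agent.H70.SF.GA
import Pool.Agent.H26.SF.Sb

/-!
SMOOTHED FATOU (MP_8f2e1c_an), early stage, module GAU (helper26): the Gaussian law on pairs of coefficient vectors.

`ipK` is the Bombieri (Kostlan) inner product, `gd tau X0` the density `exp (-|X - X0|^2/tau^2)`, `gm tau X0` the
measure with this density (not normalised). `sb1`: if `E` is invariant under the complex line spanned by `f` and
`l (X + t f) = l X + t`, then `gm(E, |l| ≤ r) ≤ r^2 |f|^2/tau^2 gm(E)`.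
-/

set_option autoImplicit false

open MeasureTheory Finset

namespace Pool.H26.SF

open Pool.H70.SF

/-- Bombieri inner product, linear in the first argument -/
noncomputable def ipK {d : ℕ} (X Y : CV d) : ℂ :=
  ∑ k : Fin (d + 1), (X.1 k * (starRingEnd ℂ) (Y.1 k) + X.2 k * (starRingEnd ℂ) (Y.2 k)) / (d.choose k : ℂ)

/-- Gaussian density with centre `X0` and noise `tau`, not normalised -/
noncomputable def gd {d : ℕ} (tau : ℝ) (X0 X : CV d) : ENNReal :=
  ENNReal.ofReal (Real.exp (-(BN2 (X - X0)) / tau ^ 2))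

/-- Gaussian measure with centre `X0` and noise `tau`, not normalised -/
noncomputable def gm {d : ℕ} (tau : ℝ) (X0 : CV d) : Measure (CV d) := volume.withDensity (gd tau X0)

theorem choose_pos' {d : ℕ} (k : Fin (d + 1)) : (0 : ℝ) < (d.choose k : ℝ) := by
  exact_mod_cast Nat.choose_pos (Nat.lt_succ_iff.1 k.2)

theorem BN2_add_smul {d : ℕ} (X f : CV d) (t : ℂ) :
    BN2 (X + t • f) = BN2 X + 2 * ((starRingEnd ℂ) t * ipK X f).re + ‖t‖ ^ 2 * BN2 f := by
  have h : ∀ (a b : ℂ), ‖a + t * b‖ ^ 2 = ‖a‖ ^ 2 + 2 * ((starRingEnd ℂ) t * (a * (starRingEnd ℂ) b)).re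
      + ‖t‖ ^ 2 * ‖b‖ ^ 2 := by
    intro a b
    rw [← Complex.normSq_eq_norm_sq, ← Complex.normSq_eq_norm_sq, ← Complex.normSq_eq_norm_sq,
      ← Complex.normSq_eq_norm_sq, Complex.normSq_add, Complex.normSq_mul]
    have : (starRingEnd ℂ) t * (a * (starRingEnd ℂ) b) = a * (starRingEnd ℂ) (t * b) := by
      rw [map_mul]; ring
    rw [this]; ring
  unfold BN2 ipK
  rw [Finset.mul_sum, Finset.mul_sum, Complex.re_sum, Finset.mul_sum, ← Finset.sum_add_distrib,
    ← Finset.sum_add_distrib]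
  refine Finset.sum_congr rfl fun k _ => ?_
  have h1 : ((X + t • f).1 k) = X.1 k + t * f.1 k := rfl
  have h2 : ((X + t • f).2 k) = X.2 k + t * f.2 k := rfl
  rw [h1, h2, h, h]
  have hk := choose_pos' k
  have h3 : ((starRingEnd ℂ) t * ((X.1 k * (starRingEnd ℂ) (f.1 k) + X.2 k * (starRingEnd ℂ) (f.2 k)) /
      (d.choose k : ℂ))).re = (((starRingEnd ℂ) t * (X.1 k * (starRingEnd ℂ) (f.1 k))).re +
        ((starRingEnd ℂ) t * (X.2 k * (starRingEnd ℂ) (f.2 k))).re) / (d.choose k : ℝ) := by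
    have h4 : (starRingEnd ℂ) t * ((X.1 k * (starRingEnd ℂ) (f.1 k) + X.2 k * (starRingEnd ℂ) (f.2 k)) /
      (d.choose k : ℂ)) = ((starRingEnd ℂ) t * (X.1 k * (starRingEnd ℂ) (f.1 k)) +
        (starRingEnd ℂ) t * (X.2 k * (starRingEnd ℂ) (f.2 k))) / ((d.choose k : ℝ) : ℂ) := by
      push_cast; ring
    rw [h4, Complex.div_ofReal_re, Complex.add_re]
  rw [h3]
  field_simp
  ring

theorem BN2_cont {d : ℕ} : Continuous fun X : CV d => BN2 X := by
  unfold BN2
  fun_prop

theorem gd_meas {d : ℕ} (tau : ℝ) (X0 : CV d) : Measurable (gd tau X0) := by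
  unfold gd
  refine ENNReal.measurable_ofReal.comp (Continuous.measurable ?_)
  have : Continuous fun X : CV d => BN2 (X - X0) := BN2_cont.comp (continuous_id.sub continuous_const)
  fun_prop

instance vol_haar {d : ℕ} : (volume : Measure (CV d)).IsAddHaarMeasure :=
  Measure.prod.instIsAddHaarMeasure _ _

instance vol_linv {d : ℕ} : (volume : Measure (CV d)).IsAddLeftInvariant :=
  Measure.prod.instIsAddLeftInvariant

instance vol_rinv {d : ℕ} : (volume : Measure (CV d)).IsAddRightInvariant := inferInstance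

theorem lint_gauss {b : ℝ} (hb : 0 < b) :
    ∫⁻ t : ℂ, ENNReal.ofReal (Real.exp (-b * ‖t‖ ^ 2)) = ENNReal.ofReal (Real.pi / b) := by
  have h1 : ∫ t : ℂ, Real.exp (-b * ‖t‖ ^ 2) = Real.pi / b := by
    have := GaussianFourier.integral_rexp_neg_mul_sq_norm (V := ℂ) hb
    rw [this]
    simp [Complex.finrank_real_complex]
  have h2 : Integrable fun t : ℂ => Real.exp (-b * ‖t‖ ^ 2) := by
    by_contra hcon
    rw [integral_undef hcon] at h1
    have : 0 < Real.pi / b := by positivity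
    linarith
  rw [← h1, ofReal_integral_eq_lintegral_ofReal h2]
  exact Filter.Eventually.of_forall fun t => (Real.exp_pos _).le

theorem gd_line {d : ℕ} {tau : ℝ} (ht : 0 < tau) (X0 f : CV d) (hf : 0 < BN2 f) (X : CV d) :
    gd tau X0 X ≤ ENNReal.ofReal (BN2 f / (Real.pi * tau ^ 2)) * ∫⁻ t : ℂ, gd tau X0 (X + t • f) := by
  set b : ℝ := BN2 f / tau ^ 2 with hb
  have hbp : 0 < b := by positivity
  have h1 : ∀ t : ℂ, 2 * (gd tau X0 X * ENNReal.ofReal (Real.exp (-b * ‖t‖ ^ 2))) ≤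
      gd tau X0 (X + t • f) + gd tau X0 (X + (-t) • f) := by
    intro t
    unfold gd
    rw [← ENNReal.ofReal_mul (Real.exp_pos _).le, ← ENNReal.ofReal_add (Real.exp_pos _).le (Real.exp_pos _).le,
      ← Real.exp_add]
    have h2 : (2 : ENNReal) = ENNReal.ofReal 2 := by simp
    rw [h2, ← ENNReal.ofReal_mul (by norm_num)]
    refine ENNReal.ofReal_le_ofReal ?_
    have e1 : X + t • f - X0 = (X - X0) + t • f := by abel
    have e2 : X + (-t) • f - X0 = (X - X0) + (-t) • f := by abel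
    rw [e1, e2, BN2_add_smul, BN2_add_smul]
    set Y := X - X0
    set s : ℝ := 2 * ((starRingEnd ℂ) t * ipK Y f).re / tau ^ 2 with hs
    have e3 : -(BN2 Y + 2 * ((starRingEnd ℂ) t * ipK Y f).re + ‖t‖ ^ 2 * BN2 f) / tau ^ 2 =
        (-(BN2 Y) / tau ^ 2 + -b * ‖t‖ ^ 2) + -s := by
      rw [hs, hb]; field_simp; ring
    have e4 : -(BN2 Y + 2 * ((starRingEnd ℂ) (-t) * ipK Y f).re + ‖-t‖ ^ 2 * BN2 f) / tau ^ 2 =
        (-(BN2 Y) / tau ^ 2 + -b * ‖t‖ ^ 2) + s := by
      rw [hs, hb, map_neg, neg_mul, Complex.neg_re, norm_neg]; field_simp; ring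
    rw [e3, e4, Real.exp_add _ (-s), Real.exp_add _ s, ← mul_add]
    have h5 : 2 ≤ Real.exp (-s) + Real.exp s := by
      have := Real.add_one_le_exp s
      have h6 := Real.exp_pos s
      have h7 : Real.exp (-s) * Real.exp s = 1 := by rw [← Real.exp_add]; simp
      nlinarith [sq_nonneg (Real.exp s - Real.exp (-s)), sq_nonneg (Real.exp s - 1), Real.exp_pos (-s)]
    have h8 := Real.exp_pos (-(BN2 Y) / tau ^ 2 + -b * ‖t‖ ^ 2)
    nlinarith
  have h2 : ∫⁻ t : ℂ, gd tau X0 (X + (-t) • f) = ∫⁻ t : ℂ, gd tau X0 (X + t • f) := by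
    have hm : Measurable fun t : ℂ => gd tau X0 (X + t • f) := by
      refine (gd_meas tau X0).comp ?_
      exact (continuous_const.add (continuous_id.smul continuous_const)).measurable
    exact (Measure.measurePreserving_neg (volume : Measure ℂ)).lintegral_comp hm
  have hmeas : Measurable fun t : ℂ => gd tau X0 (X + t • f) := by
    refine (gd_meas tau X0).comp ?_
    exact (continuous_const.add (continuous_id.smul continuous_const)).measurable
  have h3 : 2 * (gd tau X0 X * ENNReal.ofReal (Real.pi / b)) ≤ 2 * ∫⁻ t : ℂ, gd tau X0 (X + t • f) := by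
    rw [← lint_gauss hbp, ← lintegral_const_mul', ← lintegral_const_mul']
    · calc ∫⁻ t : ℂ, 2 * (gd tau X0 X * ENNReal.ofReal (Real.exp (-b * ‖t‖ ^ 2)))
          ≤ ∫⁻ t : ℂ, (gd tau X0 (X + t • f) + gd tau X0 (X + (-t) • f)) := lintegral_mono h1
        _ = 2 * ∫⁻ t : ℂ, gd tau X0 (X + t • f) := by
            rw [lintegral_add_left hmeas, h2, two_mul]
    · simp
    · exact ENNReal.ofReal_ne_top
  have h4 : gd tau X0 X * ENNReal.ofReal (Real.pi / b) ≤ ∫⁻ t : ℂ, gd tau X0 (X + t • f) := by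
    have := (ENNReal.mul_le_mul_iff_right (a := 2) (by simp) (by simp)).1 h3
    exact this
  calc gd tau X0 X = ENNReal.ofReal (BN2 f / (Real.pi * tau ^ 2)) *
        (gd tau X0 X * ENNReal.ofReal (Real.pi / b)) := by
        rw [mul_comm (gd tau X0 X), ← mul_assoc, ← ENNReal.ofReal_mul (by positivity)]
        have : BN2 f / (Real.pi * tau ^ 2) * (Real.pi / b) = 1 := by
          rw [hb]; field_simp
        rw [this]; simp
    _ ≤ _ := by gcongr

/-- LEMMA SB1 -/
theorem sb1 {d : ℕ} {tau : ℝ} (ht : 0 < tau) (X0 f : CV d) (hf : 0 < BN2 f)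
    (l : CV d → ℂ) (hl : Measurable l) (hlf : ∀ X, ∀ t : ℂ, l (X + t • f) = l X + t)
    (E : Set (CV d)) (hE : MeasurableSet E) (hEf : ∀ X, ∀ t : ℂ, X ∈ E → X + t • f ∈ E)
    {r : ℝ} (hr : 0 ≤ r) :
    gm tau X0 (E ∩ {X | ‖l X‖ ≤ r}) ≤ ENNReal.ofReal (r ^ 2 * BN2 f / tau ^ 2) * gm tau X0 E := by
  unfold gm
  rw [withDensity_apply _ (hE.inter (measurableSet_le hl.norm measurable_const)), withDensity_apply _ hE]
  have h := sb1_abs (V := CV d) volume f (fun t => measurePreserving_add_right volume (t • f))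
    (continuous_id.smul continuous_const).measurable (gd tau X0) (gd_meas tau X0)
    (ENNReal.ofReal (BN2 f / (Real.pi * tau ^ 2))) (gd_line ht X0 f hf) l hl hlf E hE hEf r
  refine h.trans (le_of_eq ?_)
  congr 1
  rw [Complex.volume_closedBall]
  have : (NNReal.pi : ENNReal) = ENNReal.ofReal Real.pi := by
    rw [← NNReal.coe_real_pi, ENNReal.ofReal_coe_nnreal]
  rw [this, ← ENNReal.ofReal_pow hr, ← ENNReal.ofReal_mul (by positivity), ← ENNReal.ofReal_mul (by positivity)]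
  congr 1
  field_simp

theorem gau_eq {d : ℕ} {A : ℝ} (hA : 0 ≤ A) (tau : ℝ) (X0 : CV d) :
    gau A X0 tau = ENNReal.ofReal A • gm tau X0 := by
  unfold gau gm
  rw [← withDensity_smul _ (gd_meas tau X0)]
  congr 1
  funext X
  rw [ENNReal.ofReal_mul hA]
  rfl

/-- LEMMA SB1 for the measures of H70/SF/GA -/
theorem sb1_gau {d : ℕ} {A tau : ℝ} (hA : 0 ≤ A) (ht : 0 < tau) (X0 f : CV d) (hf : 0 < BN2 f)
    (l : CV d → ℂ) (hl : Measurable l) (hlf : ∀ X, ∀ t : ℂ, l (X + t • f) = l X + t)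
    (E : Set (CV d)) (hE : MeasurableSet E) (hEf : ∀ X, ∀ t : ℂ, X ∈ E → X + t • f ∈ E)
    {r : ℝ} (hr : 0 ≤ r) :
    gau A X0 tau (E ∩ {X | ‖l X‖ ≤ r}) ≤ ENNReal.ofReal (r ^ 2 * BN2 f / tau ^ 2) * gau A X0 tau E := by
  rw [gau_eq hA, Measure.smul_apply, Measure.smul_apply, smul_eq_mul, smul_eq_mul, mul_left_comm]
  gcongr
  exact sb1 ht X0 f hf l hl hlf E hE hEf hr

end Pool.H26.SF
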